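import Pool.Agent.Q217.FL.Defs

set_option autoImplicit false

/-!
# The algebras of frames with a predicate on sets

A frame is a set `Y` with a predicate `sp` on its subsets (`sp univ`, not `sp ∅`). The elements of its
algebra are the pairs `(c, u)` with `c ⊆ Y`, `u` a truth value, `u → sp c`, ordered lexicographically.
The product of two nonunits is `(c ∩ c', ⊥)`.
-/

namespace Pool.Agent.Q217.CI

open Pool.Agent.Q217.FL

/-- Frames: a set with a predicate on its subsets. -/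
structure Fr where
  /-- The points. -/
  Y : Type
  /-- The special sets. -/
  sp : Set Y → Prop
  sp_univ : sp Set.univ
  sp_empty : ¬ sp ∅

/-- The elements of the algebra of a frame. -/
@[ext]
structure El (F : Fr) where
  /-- The class. -/
  c : Set F.Y
  /-- The upper bit. -/
  u : Prop
  h : u → F.sp c

namespace El

variable {F : Fr}

instance : LE (El F) := ⟨fun x y => x.c ⊆ y.c ∧ (y.c ⊆ x.c → x.u → y.u)⟩

theorem le_def {x y : El F} : x ≤ y ↔ x.c ⊆ y.c ∧ (y.c ⊆ x.c → x.u → y.u) := Iff.rfl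

theorem ext' {x y : El F} (h1 : x.c = y.c) (h2 : x.u ↔ y.u) : x = y :=
  El.ext h1 (propext h2)

instance : PartialOrder (El F) where
  le_refl x := ⟨subset_rfl, fun _ h => h⟩
  le_trans x y z h1 h2 := by
    refine ⟨h1.1.trans h2.1, fun h3 h4 => ?_⟩
    exact h2.2 (h3.trans h1.1) (h1.2 (h2.1.trans h3) h4)
  le_antisymm x y h1 h2 := by
    exact ext' (h1.1.antisymm h2.1) ⟨h1.2 h2.1, h2.2 h1.1⟩

/-- The supremum. -/
def sup' (x y : El F) : El F where
  c := x.c ∪ y.c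
  u := (x.u ∧ y.c ⊆ x.c) ∨ (y.u ∧ x.c ⊆ y.c)
  h := by
    rintro (⟨h1, h2⟩ | ⟨h1, h2⟩)
    · rw [Set.union_eq_self_of_subset_right h2]; exact x.h h1
    · rw [Set.union_eq_self_of_subset_left h2]; exact y.h h1

/-- The infimum. -/
def inf' (x y : El F) : El F where
  c := x.c ∩ y.c
  u := F.sp (x.c ∩ y.c) ∧ (x.c ⊆ y.c → x.u) ∧ (y.c ⊆ x.c → y.u)
  h := fun h => h.1

instance : Lattice (El F) where
  sup := sup'
  inf := inf'
  le_sup_left x y := by
    refine ⟨Set.subset_union_left, fun h1 h2 => Or.inl ⟨h2, ?_⟩⟩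
    exact Set.subset_union_right.trans h1
  le_sup_right x y := by
    refine ⟨Set.subset_union_right, fun h1 h2 => Or.inr ⟨h2, ?_⟩⟩
    exact Set.subset_union_left.trans h1
  sup_le x y z h1 h2 := by
    refine ⟨Set.union_subset h1.1 h2.1, fun h3 h4 => ?_⟩
    rcases h4 with ⟨h5, h6⟩ | ⟨h5, h6⟩
    · refine h1.2 ?_ h5
      change z.c ⊆ x.c ∪ y.c at h3
      rwa [Set.union_eq_self_of_subset_right h6] at h3
    · refine h2.2 ?_ h5
      change z.c ⊆ x.c ∪ y.c at h3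
      rwa [Set.union_eq_self_of_subset_left h6] at h3
  inf_le_left x y := by
    refine ⟨Set.inter_subset_left, fun h1 h2 => h2.2.1 ?_⟩
    exact h1.trans Set.inter_subset_right
  inf_le_right x y := by
    refine ⟨Set.inter_subset_right, fun h1 h2 => h2.2.2 ?_⟩
    exact h1.trans Set.inter_subset_left
  le_inf x y z h1 h2 := by
    refine ⟨Set.subset_inter h1.1 h2.1, fun h3 h4 => ⟨?_, fun h5 => ?_, fun h5 => ?_⟩⟩
    · have : y.c ∩ z.c = x.c := Set.Subset.antisymm h3 (Set.subset_inter h1.1 h2.1)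
      rw [this]
      exact x.h h4
    · refine h1.2 ?_ h4
      exact (Set.subset_inter subset_rfl h5).trans h3
    · refine h2.2 ?_ h4
      exact (Set.subset_inter h5 subset_rfl).trans h3

theorem sup_c (x y : El F) : (x ⊔ y).c = x.c ∪ y.c := rfl
theorem sup_u (x y : El F) : (x ⊔ y).u ↔ (x.u ∧ y.c ⊆ x.c) ∨ (y.u ∧ x.c ⊆ y.c) := Iff.rfl
theorem inf_c (x y : El F) : (x ⊓ y).c = x.c ∩ y.c := rfl
theorem inf_u (x y : El F) :
    (x ⊓ y).u ↔ F.sp (x.c ∩ y.c) ∧ (x.c ⊆ y.c → x.u) ∧ (y.c ⊆ x.c → y.u) := Iff.rfl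

instance : BoundedOrder (El F) where
  top := ⟨Set.univ, True, fun _ => F.sp_univ⟩
  bot := ⟨∅, False, fun h => h.elim⟩
  le_top _ := ⟨Set.subset_univ _, fun _ _ => trivial⟩
  bot_le _ := ⟨Set.empty_subset _, fun _ h => h.elim⟩

/-- Being the unit. -/
def Is1 (x : El F) : Prop := x.c = Set.univ ∧ x.u

/-- The product. -/
def mul' (x y : El F) : El F where
  c := x.c ∩ y.c
  u := (Is1 x ∧ y.u) ∨ (Is1 y ∧ x.u)
  h := by
    rintro (⟨h1, h2⟩ | ⟨h1, h2⟩)
    · rw [h1.1, Set.univ_inter]; exact y.h h2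
    · rw [h1.1, Set.inter_univ]; exact x.h h2

theorem is1_mul' (x y : El F) : Is1 (mul' x y) ↔ Is1 x ∧ Is1 y := by
  have h : (x.c ∩ y.c = Set.univ) ↔ x.c = Set.univ ∧ y.c = Set.univ := by
    constructor
    · intro h
      exact ⟨Set.eq_univ_of_univ_subset (h ▸ Set.inter_subset_left),
        Set.eq_univ_of_univ_subset (h ▸ Set.inter_subset_right)⟩
    · rintro ⟨h1, h2⟩
      rw [h1, h2, Set.univ_inter]
  unfold Is1 mul'
  unfold Is1
  change (x.c ∩ y.c = Set.univ ∧ _) ↔ _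
  rw [h]
  tauto

instance : CommMonoid (El F) where
  mul := mul'
  one := ⟨Set.univ, True, fun _ => F.sp_univ⟩
  mul_assoc x y z := by
    refine ext' (Set.inter_assoc _ _ _) ?_
    change (Is1 (mul' x y) ∧ z.u) ∨ (Is1 z ∧ (mul' x y).u) ↔
      (Is1 x ∧ (mul' y z).u) ∨ (Is1 (mul' y z) ∧ x.u)
    rw [is1_mul', is1_mul']
    change (_ ∧ z.u) ∨ (Is1 z ∧ ((Is1 x ∧ y.u) ∨ (Is1 y ∧ x.u))) ↔
      (Is1 x ∧ ((Is1 y ∧ z.u) ∨ (Is1 z ∧ y.u))) ∨ (_ ∧ x.u)
    tauto
  one_mul x := by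
    refine ext' (Set.univ_inter _) ?_
    change ((_ ∧ _) ∧ x.u) ∨ (Is1 x ∧ True) ↔ x.u
    unfold Is1
    tauto
  mul_one x := by
    refine ext' (Set.inter_univ _) ?_
    change (Is1 x ∧ True) ∨ ((_ ∧ _) ∧ x.u) ↔ x.u
    unfold Is1
    tauto
  mul_comm x y := by
    refine ext' (Set.inter_comm _ _) ?_
    change (Is1 x ∧ y.u) ∨ (Is1 y ∧ x.u) ↔ (Is1 y ∧ x.u) ∨ (Is1 x ∧ y.u)
    tauto

theorem mul_c (x y : El F) : (x * y).c = x.c ∩ y.c := rfl
theorem mul_u (x y : El F) : (x * y).u ↔ (Is1 x ∧ y.u) ∨ (Is1 y ∧ x.u) := Iff.rfl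
theorem one_c : (1 : El F).c = Set.univ := rfl
theorem one_u : (1 : El F).u ↔ True := Iff.rfl
theorem bot_c : (⊥ : El F).c = ∅ := rfl
theorem bot_u : (⊥ : El F).u ↔ False := Iff.rfl

theorem eq_one_iff {x : El F} : x = 1 ↔ Is1 x := by
  constructor
  · rintro rfl
    exact ⟨rfl, trivial⟩
  · intro h
    exact ext' h.1 ⟨fun _ => trivial, fun _ => h.2⟩

/-- The residual. -/
def res' (x y : El F) : El F where
  c := x.cᶜ ∪ y.c
  u := x ≤ y ∨ (Is1 x ∧ y.u) ∨ (¬ Is1 x ∧ x.cᶜ ∪ y.c ≠ Set.univ ∧ F.sp (x.cᶜ ∪ y.c))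
  h := by
    rintro (h | ⟨h1, h2⟩ | h)
    · have : x.cᶜ ∪ y.c = Set.univ := by
        rw [Set.eq_univ_iff_forall]
        intro z
        by_cases hz : z ∈ x.c
        · exact Or.inr (h.1 hz)
        · exact Or.inl hz
      rw [this]
      exact F.sp_univ
    · rw [h1.1, Set.compl_univ, Set.empty_union]
      exact y.h h2
    · exact h.2.2

theorem mul_le_iff' (a b c : El F) : a * b ≤ c ↔ b ≤ res' a c := by
  rw [le_def, le_def, mul_c, mul_u]
  change (a.c ∩ b.c ⊆ c.c ∧ _) ↔ (b.c ⊆ a.cᶜ ∪ c.c ∧ (a.cᶜ ∪ c.c ⊆ b.c → b.u →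
    (a ≤ c ∨ (Is1 a ∧ c.u) ∨ (¬ Is1 a ∧ a.cᶜ ∪ c.c ≠ Set.univ ∧ F.sp (a.cᶜ ∪ c.c)))))
  have h1 : a.c ∩ b.c ⊆ c.c ↔ b.c ⊆ a.cᶜ ∪ c.c := by
    constructor
    · intro h z hz
      by_cases h2 : z ∈ a.c
      · exact Or.inr (h ⟨h2, hz⟩)
      · exact Or.inl h2
    · rintro h z ⟨h2, h3⟩
      rcases h h3 with h4 | h4
      · exact absurd h2 h4
      · exact h4
  rw [h1]
  refine and_congr_right fun h2 => ?_
  constructor
  · intro h3 h4 h5
    have h6 : b.c = a.cᶜ ∪ c.c := h2.antisymm h4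
    by_cases ha : Is1 a
    · -- a = 1
      refine Or.inr (Or.inl ⟨ha, ?_⟩)
      refine h3 ?_ (Or.inl ⟨ha, h5⟩)
      intro z hz
      exact ⟨ha.1 ▸ trivial, h6 ▸ Or.inr hz⟩
    · by_cases hu : a.cᶜ ∪ c.c = Set.univ
      · left
        have h7 : a.c ⊆ c.c := by
          intro z hz
          have := hu ▸ Set.mem_univ z
          rcases this with h | h
          · exact absurd hz h
          · exact h
        refine ⟨h7, fun h8 h9 => ?_⟩
        have hb : b.c = Set.univ := h6.trans hu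
        refine h3 ?_ (Or.inr ⟨⟨hb, h5⟩, h9⟩)
        intro z hz
        exact ⟨h8 hz, hb ▸ trivial⟩
      · right; right
        refine ⟨ha, hu, ?_⟩
        rw [← h6]
        exact b.h h5
  · intro h3 h4 h5
    rcases h5 with ⟨ha, hb⟩ | ⟨hb, ha⟩
    · have h6 : a.cᶜ ∪ c.c ⊆ b.c := by
        intro z hz
        rcases hz with hz | hz
        · exact absurd (ha.1 ▸ Set.mem_univ z) hz
        · exact (h4 hz).2
      rcases h3 h6 hb with h7 | h7 | h7
      · refine h7.2 ?_ ha.2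
        rw [ha.1]
        intro z hz
        exact trivial
      · exact h7.2
      · exact absurd ha h7.1
    · have h6 : a.cᶜ ∪ c.c ⊆ b.c := by
        rw [hb.1]
        exact Set.subset_univ _
      rcases h3 h6 hb.2 with h7 | h7 | h7
      · exact h7.2 (fun z hz => (h4 hz).1) ha
      · exact h7.2
      · exact absurd (Set.univ_subset_iff.1 (hb.1 ▸ h2)) h7.2.1

instance : FLewAlgebra (El F) where
  res := res'
  one_eq_top := rfl
  mul_le_iff := mul_le_iff'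

theorem res_c (x y : El F) : (FLewAlgebra.res x y).c = x.cᶜ ∪ y.c := rfl
theorem res_u (x y : El F) : (FLewAlgebra.res x y).u ↔
    x ≤ y ∨ (Is1 x ∧ y.u) ∨ (¬ Is1 x ∧ x.cᶜ ∪ y.c ≠ Set.univ ∧ F.sp (x.cᶜ ∪ y.c)) := Iff.rfl

end El

theorem res_eq_one {A : Type} [FLewAlgebra A] (a b : A) : FLewAlgebra.res a b = 1 ↔ a ≤ b := by
  have h := FLewAlgebra.mul_le_iff a 1 b
  rw [mul_one] at h
  rw [h, FLewAlgebra.one_eq_top]
  exact top_le_iff.symm

end Pool.Agent.Q217.CI
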