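import Pool.Agent.Q217.CI.Tests

set_option autoImplicit false

/-!
# Craig interpolation for the logic of an amalgamable class of frames
-/

namespace Pool.Agent.Q217.CI

open Pool.Agent.Q217.FL
open Classical

/-- Validity in a class of frames. -/
def Val (K : Fr → Prop) (φ : Fml) : Prop := ∀ F : Fr, K F → ∀ v : ℕ → El F, eval v φ = 1

/-- Amalgamation of frames. -/
def Amal (K : Fr → Prop) : Prop :=
  ∀ F G : Fr, K F → K G → ∀ (X : Type) (f : F.Y → X) (g : G.Y → X),
    Set.range f = Set.range g → (∀ Z : Set X, F.sp (f ⁻¹' Z) ↔ G.sp (g ⁻¹' Z)) →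
    ∃ H : Fr, K H ∧ ∃ (p : H.Y → F.Y) (q : H.Y → G.Y), Function.Surjective p ∧
      Function.Surjective q ∧ (∀ y, f (p y) = g (q y)) ∧ (∀ Z, H.sp (p ⁻¹' Z) ↔ F.sp Z) ∧
      ∀ Z, H.sp (q ⁻¹' Z) ↔ G.sp Z

/-- The frame with one point. -/
def pt : Fr where
  Y := Unit
  sp c := c = Set.univ
  sp_univ := rfl
  sp_empty h := by
    have : () ∈ (∅ : Set Unit) := h ▸ Set.mem_univ ()
    exact this

theorem eval01 {F : Fr} (e : ℕ → Prop) (φ : Fml) :
    eval (fun n => if e n then (1 : El F) else ⊥) φ = if cl e φ then 1 else ⊥ := by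
  have hb1 : (⊥ : El F) ≤ 1 := bot_le
  have h0 : ∀ x : El F, FLewAlgebra.res ⊥ x = 1 := fun x => (res_eq_one _ _).2 bot_le
  have h1 : ∀ x : El F, FLewAlgebra.res 1 x = x := by
    intro x
    refine le_antisymm ?_ ?_
    · have := (FLewAlgebra.mul_le_iff 1 (FLewAlgebra.res 1 x) x).2 le_rfl
      rwa [one_mul] at this
    · exact (FLewAlgebra.mul_le_iff 1 x x).1 (by rw [one_mul])
  have h2 : ∀ x : El F, ⊥ * x = ⊥ := by
    intro x
    refine le_antisymm ?_ bot_le
    rw [mul_comm]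
    exact (FLewAlgebra.mul_le_iff x ⊥ ⊥).2 bot_le
  have h3 : ∀ x : El F, x * ⊥ = ⊥ := fun x => by rw [mul_comm, h2]
  induction φ with
  | var n => rfl
  | and φ ψ ih1 ih2 =>
    rw [eval, ih1, ih2, cl]
    by_cases ha : cl e φ <;> by_cases hb : cl e ψ <;> simp [ha, hb]
  | or φ ψ ih1 ih2 =>
    rw [eval, ih1, ih2, cl]
    by_cases ha : cl e φ <;> by_cases hb : cl e ψ <;> simp [ha, hb]
  | mul φ ψ ih1 ih2 =>
    rw [eval, ih1, ih2, cl]
    by_cases ha : cl e φ <;> by_cases hb : cl e ψ <;> simp [ha, hb, h2, h3]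
  | imp φ ψ ih1 ih2 =>
    rw [eval, ih1, ih2, cl]
    by_cases ha : cl e φ <;> by_cases hb : cl e ψ <;> simp [ha, hb, h0, h1]
  | e => simp [eval, cl]
  | f => simp [eval, cl]

theorem bot_ne_one {F : Fr} : (⊥ : El F) ≠ 1 := by
  intro h
  exact not_is1_bot (El.eq_one_iff.1 h)

theorem cl_of_val {K : Fr → Prop} (hpt : K pt) {φ : Fml} (h : Val K φ) (e : ℕ → Prop) :
    cl e φ := by
  by_contra hc
  have := h pt hpt fun n => if e n then (1 : El pt) else ⊥
  rw [eval01, if_neg hc] at this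
  exact bot_ne_one this

theorem val_imp {K : Fr → Prop} {φ ψ : Fml} :
    Val K (φ.imp ψ) ↔ ∀ F : Fr, K F → ∀ v : ℕ → El F, eval v φ ≤ eval v ψ := by
  unfold Val
  refine forall_congr' fun F => forall_congr' fun _ => forall_congr' fun v => ?_
  change FLewAlgebra.res (eval v φ) (eval v ψ) = 1 ↔ _
  rw [res_eq_one]

/-- **Craig interpolation** for classes of frames with amalgamation. -/
theorem cip {K : Fr → Prop} (hpt : K pt) (ham : Amal K) (α β : Fml) (h : Val K (α.imp β)) :
    ∃ δ : Fml, δ.vars ⊆ α.vars ∩ β.vars ∧ Val K (α.imp δ) ∧ Val K (δ.imp β) := by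
  have hfin : (α.vars ∩ β.vars).Finite := (vars_finite α).inter_of_left _
  obtain ⟨Q, hQ⟩ : ∃ Q : Finset ℕ, (Q : Set ℕ) = α.vars ∩ β.vars :=
    ⟨hfin.toFinset, hfin.coe_toFinset⟩
  have hQm : ∀ n, n ∈ Q ↔ n ∈ α.vars ∧ n ∈ β.vars := by
    intro n
    rw [← Finset.mem_coe, hQ]
    exact Iff.rfl
  have hcl : ∀ e, cl e α → cl e β := fun e => cl_of_val hpt h e
  have hle := val_imp.1 h
  -- the Boolean part of the interpolant
  let D : Set (Set Q) := {A | ∃ e, cl e α ∧ A = {q : Q | e q}}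
  have key1 : ∀ (F : Fr) (v : ℕ → El F), (eval v α).c ⊆ xs Q v ⁻¹' D := by
    intro F v y hy
    exact ⟨fun n => y ∈ (v n).c, (mem_eval v α y).1 hy, rfl⟩
  have key2 : ∀ (G : Fr) (w : ℕ → El G), xs Q w ⁻¹' D ⊆ (eval w β).c := by
    rintro G w y ⟨e, he1, he2⟩
    rw [mem_eval]
    have h1 : cl (fun n => if n ∈ α.vars then e n else y ∈ (w n).c) β := by
      refine hcl _ ((cl_congr α fun n hn => ?_).1 he1)
      simp [hn]
    refine (cl_congr β fun n hn => ?_).1 h1
    by_cases hna : n ∈ α.vars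
    · rw [if_pos hna]
      have h2 : (⟨n, (hQm n).2 ⟨hna, hn⟩⟩ : Q) ∈ xs Q w y ↔
          (⟨n, (hQm n).2 ⟨hna, hn⟩⟩ : Q) ∈ {q : Q | e q} := by rw [he2]
      exact h2.symm
    · rw [if_neg hna]
  let B : Fml := Ng (Ng (chi Q D))
  have hBc : ∀ (F : Fr) (v : ℕ → El F), (eval v B).c = xs Q v ⁻¹' D := by
    intro F v
    rw [nn_c, chi_c]
  have hBu : ∀ (F : Fr) (v : ℕ → El F), (eval v B).u ↔ F.sp (xs Q v ⁻¹' D) := by
    intro F v
    rw [nn_u, chi_c]
  let good : Set (Set (Set (Set Q) ⊕ Set (Set Q) ⊕ Q) × Set (Set (Set Q)) ×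
      Set (Set (Set Q) ⊕ Set (Set Q) ⊕ Q)) :=
    {j | j.2.2.Nonempty ∧ Val K (α.imp (.mul B (kap Q j)))}
  have hkl : ∀ (F : Fr) (v : ℕ → El F), ∀ φ ∈ (lst good).map (kap Q),
      (eval v φ).c = Set.univ := by
    intro F v φ hφ
    obtain ⟨j, hj, rfl⟩ := List.mem_map.1 hφ
    exact (kap_spec Q j ((mem_lst _ _).1 hj).1 v).1
  have hKc : ∀ (F : Fr) (v : ℕ → El F), (eval v (mulL ((lst good).map (kap Q)))).c = Set.univ :=
    fun F v => mulL_c v _ (hkl F v)
  refine ⟨.mul B (mulL ((lst good).map (kap Q))), ?_, ?_, ?_⟩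
  · rw [← hQ]
    refine Set.union_subset (ng_vars _ _ (ng_vars _ _ (chi_vars Q D))) (mulL_vars _ _ ?_)
    intro φ hφ
    obtain ⟨j, -, rfl⟩ := List.mem_map.1 hφ
    exact kap_vars Q j
  · rw [val_imp]
    intro F hF v
    change eval v α ≤ eval v B * eval v (mulL _)
    rw [El.le_def, El.mul_c, El.mul_u, hKc, Set.inter_univ, hBc]
    refine ⟨key1 F v, fun h1 h2 => ?_⟩
    have h3 : (eval v α).c = xs Q v ⁻¹' D := (key1 F v).antisymm h1
    have h4 : (eval v B).u := (hBu F v).2 (h3 ▸ (eval v α).h h2)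
    right
    refine ⟨?_, h4⟩
    rw [is1_mulL]
    intro φ hφ
    obtain ⟨j, hj, rfl⟩ := List.mem_map.1 hφ
    have hj' := (mem_lst _ _).1 hj
    have hc := (kap_spec Q j hj'.1 v).1
    have h5 : eval v α ≤ eval v B * eval v (kap Q j) := val_imp.1 hj'.2 F hF v
    rw [El.le_def, El.mul_c, El.mul_u, hc, Set.inter_univ, hBc] at h5
    rcases h5.2 h1 h2 with h6 | h6
    · exact ⟨hc, h6.2⟩
    · exact h6.1
  · rw [val_imp]
    intro G hG w
    change eval w B * eval w (mulL _) ≤ eval w β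
    rw [El.le_def, El.mul_c, El.mul_u, hKc, Set.inter_univ, hBc]
    refine ⟨key2 G w, fun h1 h2 => ?_⟩
    have h3 : (eval w β).c = xs Q w ⁻¹' D := h1.antisymm (key2 G w)
    have h4 : (eval w B).u ∧ El.Is1 (eval w (mulL ((lst good).map (kap Q)))) := by
      rcases h2 with h5 | h5
      · exact ⟨h5.1.2, hKc G w, h5.2⟩
      · exact ⟨h5.2, h5.1⟩
    rw [is1_mulL] at h4
    by_cases hnt : ∃ i, ¬ El.Is1 (eval w (th Q i))
    · -- nontrivial type
      let j : Set (Set (Set Q) ⊕ Set (Set Q) ⊕ Q) × Set (Set (Set Q)) ×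
          Set (Set (Set Q) ⊕ Set (Set Q) ⊕ Q) :=
        ⟨{i | El.Is1 (eval w (th Q i))}, {Z | El.Is1 (eval w (Ng (chi Q Z)))},
          {i | ¬ El.Is1 (eval w (th Q i))}⟩
      have hj : j.2.2.Nonempty := hnt
      have h5 : ¬ El.Is1 (eval w (kap Q j)) := by
        rw [(kap_spec Q j hj w).2]
        intro h6
        obtain ⟨i, hi1, hi2⟩ := h6 ⟨fun i hi => hi, fun Z hZ => hZ⟩
        exact hi1 hi2
      have h6 : j ∉ good := by
        intro hj1
        exact h5 (h4.2 _ (List.mem_map.2 ⟨j, (mem_lst _ _).2 hj1, rfl⟩))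
      have h7 : ¬ Val K (α.imp (.mul B (kap Q j))) := fun h8 => h6 ⟨hj, h8⟩
      rw [val_imp] at h7
      push Not at h7
      obtain ⟨F, hF, v, h8⟩ := h7
      change ¬ eval v α ≤ eval v B * eval v (kap Q j) at h8
      rw [El.le_def, El.mul_c, El.mul_u, (kap_spec Q j hj v).1, Set.inter_univ, hBc] at h8
      have h9 : xs Q v ⁻¹' D ⊆ (eval v α).c ∧ (eval v α).u ∧ ¬ El.Is1 (eval v (kap Q j)) := by
        by_contra hc
        refine h8 ⟨key1 F v, fun h10 h11 => ?_⟩
        have h12 : El.Is1 (eval v (kap Q j)) := by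
          by_contra h13
          exact hc ⟨h10, h11, h13⟩
        have h13 : (eval v α).c = xs Q v ⁻¹' D := (key1 F v).antisymm h10
        exact Or.inr ⟨h12, (hBu F v).2 (h13 ▸ (eval v α).h h11)⟩
      obtain ⟨h10, h11, h12⟩ := h9
      rw [(kap_spec Q j hj v).2] at h12
      push Not at h12
      obtain ⟨⟨h13, h14⟩, h15⟩ := h12
      have hagree := agree Q v w (fun i hi => h13 i hi) (fun i hi => by
        by_contra hc
        exact h15 i hc hi) (fun Z hZ => h14 Z hZ)
      obtain ⟨hr, hsp, hbit⟩ := hagree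
      obtain ⟨H, hH, p, q, hp, hq, hpq, hsp1, hsp2⟩ :=
        ham F G hF hG (Set Q) (xs Q v) (xs Q w) hr hsp
      let hv : ℕ → El H := fun n => if n ∈ α.vars then push p hsp1 (v n) else push q hsp2 (w n)
      have e1 : eval hv α = push p hsp1 (eval v α) := by
        rw [← eval_push hp hsp1]
        refine eval_congr α fun n hn => ?_
        simp only [hv]
        rw [if_pos hn]
      have e2 : eval hv β = push q hsp2 (eval w β) := by
        rw [← eval_push hq hsp2]
        refine eval_congr β fun n hn => ?_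
        simp only [hv]
        by_cases hna : n ∈ α.vars
        · rw [if_pos hna]
          have hnQ := (hQm n).2 ⟨hna, hn⟩
          refine El.ext' ?_ (hbit n hnQ)
          ext y
          have : (⟨n, hnQ⟩ : Q) ∈ xs Q v (p y) ↔ (⟨n, hnQ⟩ : Q) ∈ xs Q w (q y) := by rw [hpq]
          exact this
        · rw [if_neg hna]
      have h16 := hle H hH hv
      rw [e1, e2, El.le_def] at h16
      refine h16.2 ?_ h11
      intro y hy
      refine h10 ?_
      have h17 : q y ∈ xs Q w ⁻¹' D := h3 ▸ hy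
      change xs Q v (p y) ∈ D
      rw [hpq]
      exact h17
    · -- trivial type
      push Not at hnt
      have h5 : G.sp (xs Q w ⁻¹' D) := (hBu G w).1 h4.1
      have h6 : xs Q w ⁻¹' D = Set.univ := by
        rcases (th1_is1 Q D w).1 (hnt _) with h7 | h7
        · rw [h7] at h5
          exact (G.sp_empty h5).elim
        · exact h7
      obtain ⟨y0, -⟩ := Set.nonempty_iff_ne_empty.2 G.univ_ne
      obtain ⟨e, he1, he2⟩ : xs Q w y0 ∈ D := by
        have : y0 ∈ xs Q w ⁻¹' D := h6 ▸ Set.mem_univ y0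
        exact this
      let hv : ℕ → El G := fun n => if n ∈ α.vars then (if e n then 1 else ⊥) else w n
      have hw : ∀ n ∈ Q, w n = if e n then 1 else ⊥ := by
        intro n hn
        have h7 : (⟨n, hn⟩ : Q) ∈ xs Q w y0 ↔ e n := by rw [he2]; exact Iff.rfl
        have h8 : y0 ∈ (w n).c ↔ e n := h7
        have h9 := (th1_is1 Q {A | (⟨n, hn⟩ : Q) ∈ A} w).1 (hnt _)
        change (w n).c = ∅ ∨ (w n).c = Set.univ at h9
        have h10 := (th3_is1 Q ⟨n, hn⟩ w).1 (hnt _)
        change G.sp (w n).c → (w n).u at h10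
        by_cases hen : e n
        · rw [if_pos hen]
          have h11 : (w n).c = Set.univ := by
            rcases h9 with h9 | h9
            · exact absurd (h8.2 hen) (h9 ▸ Set.notMem_empty y0)
            · exact h9
          exact El.eq_one_iff.2 ⟨h11, h10 (h11 ▸ G.sp_univ)⟩
        · rw [if_neg hen]
          have h11 : (w n).c = ∅ := by
            rcases h9 with h9 | h9
            · exact h9
            · exact absurd (h8.1 (h9 ▸ Set.mem_univ y0)) hen
          exact El.ext' h11 ⟨fun hu => (G.sp_empty (h11 ▸ (w n).h hu)).elim, fun hu => hu.elim⟩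
      have e1 : eval hv α = 1 := by
        have : eval hv α = eval (fun n => if e n then (1 : El G) else ⊥) α := by
          refine eval_congr α fun n hn => ?_
          simp only [hv]
          rw [if_pos hn]
        rw [this, eval01, if_pos he1]
      have e2 : eval hv β = eval w β := by
        refine eval_congr β fun n hn => ?_
        simp only [hv]
        by_cases hna : n ∈ α.vars
        · rw [if_pos hna, hw n ((hQm n).2 ⟨hna, hn⟩)]
        · rw [if_neg hna]
      have h7 := hle G hG hv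
      rw [e1, e2, El.le_def] at h7
      refine h7.2 (Set.subset_univ _) trivial

end Pool.Agent.Q217.CI
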