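import Pool.Agent.Q217.CI.Cip

set_option autoImplicit false

/-!
# Continuum many amalgamable classes of frames
-/

namespace Pool.Agent.Q217.CI

open Pool.Agent.Q217.FL
open Classical

/-- The frame contains the configuration number `n`: a partition into `n + 3` blocks such that the
special nontrivial unions of blocks are those that are not single blocks. -/
def Conf (n : ℕ) (F : Fr) : Prop :=
  ∃ π : F.Y → Fin (n + 3), Function.Surjective π ∧
    ∀ T : Set (Fin (n + 3)), T ≠ ∅ → T ≠ Set.univ → (F.sp (π ⁻¹' T) ↔ ∀ i, T ≠ {i})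

/-- The class of the frames that omit the configurations in `M`. -/
def Kc (M : Set ℕ) (F : Fr) : Prop := ∀ n ∈ M, ¬ Conf n F

theorem kc_pt (M : Set ℕ) : Kc M pt := by
  rintro n - ⟨π, h1, -⟩
  obtain ⟨a, ha⟩ := h1 0
  obtain ⟨b, hb⟩ := h1 1
  have : a = b := rfl
  rw [this, hb] at ha
  exact absurd ha (by simp)

/-- The union of two proper subalgebras is not everything. -/
theorem union_two {A : Type} (S1 S2 : Set (Set A))
    (h1 : ∀ T ∈ S1, ∀ T' ∈ S1, symmDiff T T' ∈ S1) (h2 : ∀ T ∈ S2, ∀ T' ∈ S2, symmDiff T T' ∈ S2)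
    (h : ∀ T, T ∈ S1 ∨ T ∈ S2) : (∀ T, T ∈ S1) ∨ ∀ T, T ∈ S2 := by
  by_contra hc
  push Not at hc
  obtain ⟨⟨T, hT⟩, T', hT'⟩ := hc
  have h3 : T ∈ S2 := (h T).resolve_left hT
  have h4 : T' ∈ S1 := (h T').resolve_right hT'
  rcases h (symmDiff T T') with h5 | h5
  · have := h1 _ h5 _ h4
    rw [symmDiff_symmDiff_cancel_right] at this
    exact hT this
  · have := h2 _ h3 _ h5
    rw [symmDiff_symmDiff_cancel_left] at this
    exact hT' this

/-- A configuration of `H` whose blocks come from a factor is a configuration of the factor. -/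
theorem conf_factor {H F : Fr} (p : H.Y → F.Y) (hp : Function.Surjective p)
    (hsp : ∀ Z, H.sp (p ⁻¹' Z) ↔ F.sp Z) (n : ℕ) (π : H.Y → Fin (n + 3))
    (hπ : Function.Surjective π)
    (hc : ∀ T : Set (Fin (n + 3)), T ≠ ∅ → T ≠ Set.univ → (H.sp (π ⁻¹' T) ↔ ∀ i, T ≠ {i}))
    (h : ∀ T : Set (Fin (n + 3)), ∃ Z, π ⁻¹' T = p ⁻¹' Z) : Conf n F := by
  have hw : ∀ a b : H.Y, p a = p b → π a = π b := by
    intro a b hab
    obtain ⟨Z, hZ⟩ := h {π a}
    have h1 : a ∈ p ⁻¹' Z := hZ ▸ (rfl : π a = π a)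
    have h2 : b ∈ p ⁻¹' Z := by
      change p b ∈ Z
      rw [← hab]
      exact h1
    have h3 : b ∈ π ⁻¹' {π a} := hZ ▸ h2
    exact h3.symm
  have hw2 : ∀ a, π (Function.surjInv hp (p a)) = π a := fun a => hw _ _ (Function.surjInv_eq hp _)
  refine ⟨fun y => π (Function.surjInv hp y), ?_, ?_⟩
  · intro i
    obtain ⟨a, ha⟩ := hπ i
    exact ⟨p a, (hw2 a).trans ha⟩
  · intro T hT1 hT2
    rw [← hc T hT1 hT2, ← hsp]
    have : p ⁻¹' ((fun y => π (Function.surjInv hp y)) ⁻¹' T) = π ⁻¹' T := by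
      ext a
      change π (Function.surjInv hp (p a)) ∈ T ↔ π a ∈ T
      rw [hw2]
    rw [this]

theorem kc_amal (M : Set ℕ) : Amal (Kc M) := by
  intro F G hF hG X f g hr hfg
  have hs1 : Function.Surjective fun y : {y : F.Y × G.Y // f y.1 = g y.2} => y.1.1 := by
    intro a
    obtain ⟨b, hb⟩ : f a ∈ Set.range g := hr ▸ ⟨a, rfl⟩
    exact ⟨⟨(a, b), hb.symm⟩, rfl⟩
  have hs2 : Function.Surjective fun y : {y : F.Y × G.Y // f y.1 = g y.2} => y.1.2 := by
    intro b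
    obtain ⟨a, ha⟩ : g b ∈ Set.range f := hr ▸ ⟨b, rfl⟩
    exact ⟨⟨(a, b), ha⟩, rfl⟩
  let H : Fr :=
    { Y := {y : F.Y × G.Y // f y.1 = g y.2}
      sp := fun C => (∃ Z, F.sp Z ∧ C = (fun y => y.1.1) ⁻¹' Z) ∨
        ∃ W, G.sp W ∧ C = (fun y => y.1.2) ⁻¹' W
      sp_univ := Or.inl ⟨Set.univ, F.sp_univ, rfl⟩
      sp_empty := by
        rintro (⟨Z, h1, h2⟩ | ⟨W, h1, h2⟩)
        · have : Z = ∅ := by
            rw [Set.eq_empty_iff_forall_notMem]
            intro a ha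
            obtain ⟨y, rfl⟩ := hs1 a
            have : y ∈ (∅ : Set {y : F.Y × G.Y // f y.1 = g y.2}) := h2 ▸ ha
            exact this
          exact F.sp_empty (this ▸ h1)
        · have : W = ∅ := by
            rw [Set.eq_empty_iff_forall_notMem]
            intro a ha
            obtain ⟨y, rfl⟩ := hs2 a
            have : y ∈ (∅ : Set {y : F.Y × G.Y // f y.1 = g y.2}) := h2 ▸ ha
            exact this
          exact G.sp_empty (this ▸ h1) }
  -- the common case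
  have hcomm : ∀ (Z : Set F.Y) (W : Set G.Y),
      (fun y : {y : F.Y × G.Y // f y.1 = g y.2} => y.1.1) ⁻¹' Z = (fun y => y.1.2) ⁻¹' W →
      (F.sp Z ↔ G.sp W) := by
    intro Z W hZW
    have hmem : ∀ a b, f a = g b → (a ∈ Z ↔ b ∈ W) := by
      intro a b hab
      have : (⟨(a, b), hab⟩ : {y : F.Y × G.Y // f y.1 = g y.2}) ∈
          (fun y : {y : F.Y × G.Y // f y.1 = g y.2} => y.1.1) ⁻¹' Z ↔
          (⟨(a, b), hab⟩ : {y : F.Y × G.Y // f y.1 = g y.2}) ∈
          (fun y : {y : F.Y × G.Y // f y.1 = g y.2} => y.1.2) ⁻¹' W := by rw [hZW]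
      exact this
    have hZ : Z = f ⁻¹' (f '' Z) := by
      refine Set.Subset.antisymm (Set.subset_preimage_image f Z) ?_
      rintro a ⟨a', ha', hfa⟩
      obtain ⟨b, hb⟩ : f a ∈ Set.range g := hr ▸ ⟨a, rfl⟩
      exact (hmem a b hb.symm).2 ((hmem a' b (hfa.trans hb.symm)).1 ha')
    have hW : W = g ⁻¹' (f '' Z) := by
      ext b
      constructor
      · intro hb
        obtain ⟨a, ha⟩ : g b ∈ Set.range f := hr ▸ ⟨b, rfl⟩
        exact ⟨a, (hmem a b ha).2 hb, ha⟩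
      · rintro ⟨a, ha, hab⟩
        exact (hmem a b hab).1 ha
    have h1 := hfg (f '' Z)
    rwa [← hZ, ← hW] at h1
  have hp1 : ∀ Z, H.sp ((fun y : H.Y => y.1.1) ⁻¹' Z) ↔ F.sp Z := by
    intro Z
    constructor
    · rintro (⟨Z', h1, h2⟩ | ⟨W, h1, h2⟩)
      · rwa [hs1.preimage_injective h2]
      · exact (hcomm Z W h2).2 h1
    · intro h
      exact Or.inl ⟨Z, h, rfl⟩
  have hp2 : ∀ W, H.sp ((fun y : H.Y => y.1.2) ⁻¹' W) ↔ G.sp W := by
    intro W
    constructor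
    · rintro (⟨Z, h1, h2⟩ | ⟨W', h1, h2⟩)
      · exact (hcomm Z W h2.symm).1 h1
      · rwa [hs2.preimage_injective h2]
    · intro h
      exact Or.inr ⟨W, h, rfl⟩
  refine ⟨H, ?_, fun y => y.1.1, fun y => y.1.2, hs1, hs2, fun y => y.2, hp1, hp2⟩
  rintro n hn ⟨π, hπ, hc⟩
  let S1 : Set (Set (Fin (n + 3))) := {T | ∃ Z, π ⁻¹' T = (fun y : H.Y => y.1.1) ⁻¹' Z}
  let S2 : Set (Set (Fin (n + 3))) := {T | ∃ W, π ⁻¹' T = (fun y : H.Y => y.1.2) ⁻¹' W}
  have hS1 : ∀ T ∈ S1, ∀ T' ∈ S1, symmDiff T T' ∈ S1 := by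
    rintro T ⟨Z, hZ⟩ T' ⟨Z', hZ'⟩
    refine ⟨symmDiff Z Z', ?_⟩
    rw [Set.preimage_symmDiff, Set.preimage_symmDiff, hZ, hZ']
  have hS2 : ∀ T ∈ S2, ∀ T' ∈ S2, symmDiff T T' ∈ S2 := by
    rintro T ⟨Z, hZ⟩ T' ⟨Z', hZ'⟩
    refine ⟨symmDiff Z Z', ?_⟩
    rw [Set.preimage_symmDiff, Set.preimage_symmDiff, hZ, hZ']
  have hall0 : ∀ T : Set (Fin (n + 3)), (∀ i, T ≠ {i}) → T ∈ S1 ∨ T ∈ S2 := by
    intro T hT
    by_cases h0 : T = ∅
    · exact Or.inl ⟨∅, by rw [h0]; rfl⟩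
    by_cases h1 : T = Set.univ
    · exact Or.inl ⟨Set.univ, by rw [h1]; rfl⟩
    rcases (hc T h0 h1).2 hT with ⟨Z, -, h2⟩ | ⟨W, -, h2⟩
    · exact Or.inl ⟨Z, h2⟩
    · exact Or.inr ⟨W, h2⟩
  have hall : ∀ T : Set (Fin (n + 3)), T ∈ S1 ∨ T ∈ S2 := by
    intro T
    by_cases hT : ∀ i, T ≠ {i}
    · exact hall0 T hT
    · push Not at hT
      obtain ⟨i, rfl⟩ := hT
      have h1 : ∀ j, ({i} : Set (Fin (n + 3)))ᶜ ≠ {j} := by
        intro j hj
        -- three different elements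
        have h2 : ∀ k : Fin (n + 3), k = i ∨ k = j := by
          intro k
          by_cases hk : k = i
          · exact Or.inl hk
          · right
            have : k ∈ ({i} : Set (Fin (n + 3)))ᶜ := hk
            rw [hj] at this
            exact this
        have h3 : (Finset.univ : Finset (Fin (n + 3))) ⊆ {i, j} := by
          intro k _
          rcases h2 k with rfl | rfl <;> simp
        have h4 := Finset.card_le_card h3
        have h5 : ({i, j} : Finset (Fin (n + 3))).card ≤ 2 := Finset.card_le_two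
        rw [Finset.card_univ, Fintype.card_fin] at h4
        omega
      rcases hall0 _ h1 with ⟨Z, hZ⟩ | ⟨W, hW⟩
      · left
        refine ⟨Zᶜ, ?_⟩
        rw [Set.preimage_compl, ← hZ, Set.preimage_compl, compl_compl]
      · right
        refine ⟨Wᶜ, ?_⟩
        rw [Set.preimage_compl, ← hW, Set.preimage_compl, compl_compl]
  rcases union_two S1 S2 hS1 hS2 hall with h1 | h1
  · exact hF n hn (conf_factor _ hs1 hp1 n π hπ hc h1)
  · exact hG n hn (conf_factor _ hs2 hp2 n π hπ hc h1)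

/-- The frame of the configuration `n`. -/
def Gn (n : ℕ) : Fr where
  Y := Fin (n + 3)
  sp c := c ≠ ∅ ∧ (c = Set.univ ∨ ∀ i, c ≠ {i})
  sp_univ := ⟨Set.univ_nonempty.ne_empty, Or.inl rfl⟩
  sp_empty h := h.1 rfl

theorem gn_conf {n k : ℕ} (h : Conf k (Gn n)) : k = n := by
  obtain ⟨π, h1, h2⟩ := h
  have h3 : ∀ i : Fin (k + 3), ∃ j : Fin (n + 3), π ⁻¹' {i} = {j} := by
    intro i
    have h4 := h2 {i} (Set.singleton_ne_empty i) (by
      intro h5
      obtain ⟨j, hj⟩ : ∃ j : Fin (k + 3), j ≠ i := exists_ne i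
      have : j ∈ ({i} : Set (Fin (k + 3))) := h5 ▸ Set.mem_univ j
      exact hj this)
    have h5 : ¬ (Gn n).sp (π ⁻¹' {i}) := by
      rw [h4]
      push Not
      exact ⟨i, rfl⟩
    by_contra hc
    push Not at hc
    refine h5 ⟨?_, Or.inr hc⟩
    obtain ⟨y, hy⟩ := h1 i
    exact Set.nonempty_iff_ne_empty.1 ⟨y, hy⟩
  have hinj : Function.Injective π := by
    intro a b hab
    obtain ⟨j, hj⟩ := h3 (π a)
    have ha : a ∈ π ⁻¹' {π a} := rfl
    have hb : b ∈ π ⁻¹' {π a} := hab.symm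
    rw [hj] at ha hb
    exact (ha : a = j).trans (hb : b = j).symm
  have := Fintype.card_of_bijective (α := Fin (n + 3)) (β := Fin (k + 3)) ⟨hinj, h1⟩
  rw [Fintype.card_fin, Fintype.card_fin] at this
  omega

theorem gn_mem {n : ℕ} {M : Set ℕ} (h : n ∉ M) : Kc M (Gn n) := by
  intro k hk hc
  exact h (gn_conf hc ▸ hk)

/-- Jankov formulas. -/
theorem jankov {G : Fr} (Q : Finset ℕ) (w : ℕ → El G) (hnt : ∃ i, ¬ El.Is1 (eval w (th Q i))) :
    ∃ κ : Fml, eval w κ ≠ 1 ∧ ∀ (F : Fr) (v : ℕ → El F), eval v κ ≠ 1 →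
      Set.range (xs Q v) = Set.range (xs Q w) ∧
      (∀ Z, F.sp (xs Q v ⁻¹' Z) ↔ G.sp (xs Q w ⁻¹' Z)) ∧ ∀ q ∈ Q, ((v q).u ↔ (w q).u) := by
  let j : Set (Set (Set Q) ⊕ Set (Set Q) ⊕ Q) × Set (Set (Set Q)) ×
      Set (Set (Set Q) ⊕ Set (Set Q) ⊕ Q) :=
    ⟨{i | El.Is1 (eval w (th Q i))}, {Z | El.Is1 (eval w (Ng (chi Q Z)))},
      {i | ¬ El.Is1 (eval w (th Q i))}⟩
  have hj : j.2.2.Nonempty := hnt
  refine ⟨kap Q j, ?_, ?_⟩
  · intro h5
    rw [El.eq_one_iff, (kap_spec Q j hj w).2] at h5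
    obtain ⟨i, hi1, hi2⟩ := h5 ⟨fun i hi => hi, fun Z hZ => hZ⟩
    exact hi1 hi2
  · intro F v h5
    rw [Ne, El.eq_one_iff, (kap_spec Q j hj v).2] at h5
    push Not at h5
    obtain ⟨⟨h13, h14⟩, h15⟩ := h5
    exact agree Q v w (fun i hi => h13 i hi) (fun i hi => by
      by_contra hc
      exact h15 i hc hi) (fun Z hZ => h14 Z hZ)

/-- The valuation that generates the algebra of the configuration. -/
def wn (n : ℕ) (q : ℕ) : El (Gn n) where
  c := {i : Fin (n + 3) | (i : ℕ) = q}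
  u := False
  h := fun h => h.elim

theorem xs_wn (n : ℕ) (i : Fin (n + 3)) (q : Finset.range (n + 3)) :
    q ∈ xs (F := Gn n) (Finset.range (n + 3)) (wn n) i ↔ (i : ℕ) = q := Iff.rfl

theorem xs_wn_inj (n : ℕ) :
    Function.Injective (xs (F := Gn n) (Finset.range (n + 3)) (wn n)) := by
  intro (i : Fin (n + 3)) (j : Fin (n + 3)) hij
  have h1 : (⟨i, Finset.mem_range.2 i.2⟩ : Finset.range (n + 3)) ∈
      xs (F := Gn n) (Finset.range (n + 3)) (wn n) i := (xs_wn n i _).2 rfl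
  rw [hij] at h1
  exact Fin.ext ((xs_wn n j _).1 h1).symm

theorem exists_sep (n : ℕ) : ∃ κ : Fml, (∀ M, n ∉ M → ¬ Val (Kc M) κ) ∧
    ∀ M, n ∈ M → Val (Kc M) κ := by
  have hnt : ∃ i, ¬ El.Is1 (eval (wn n) (th (Finset.range (n + 3)) i)) := by
    refine ⟨.inl {xs (F := Gn n) (Finset.range (n + 3)) (wn n) (0 : Fin (n + 3))}, ?_⟩
    rw [th1_is1]
    have h0 : xs (F := Gn n) (Finset.range (n + 3)) (wn n) ⁻¹'
        {xs (F := Gn n) (Finset.range (n + 3)) (wn n) (0 : Fin (n + 3))} = {(0 : Fin (n + 3))} := by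
      ext i
      constructor
      · intro hi
        exact xs_wn_inj n hi
      · intro hi
        rw [Set.mem_singleton_iff.1 hi]
        rfl
    rw [h0]
    rintro (h | h)
    · exact Set.singleton_ne_empty _ h
    · have : (1 : Fin (n + 3)) ∈ ({(0 : Fin (n + 3))} : Set (Fin (n + 3))) :=
        h ▸ Set.mem_univ (1 : Fin (n + 3))
      have h2 : (1 : Fin (n + 3)) = 0 := this
      exact absurd h2 (by simp)
  obtain ⟨κ, h1, h2⟩ := jankov (Finset.range (n + 3)) (wn n) hnt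
  refine ⟨κ, fun M hM hV => h1 (hV (Gn n) (gn_mem hM) (wn n)), fun M hM F hF v => ?_⟩
  by_contra hne
  obtain ⟨hr, hsp, -⟩ := h2 F v hne
  have hex : ∀ y : F.Y, ∃ i : Fin (n + 3), xs (F := Gn n) (Finset.range (n + 3)) (wn n) i =
      xs (Finset.range (n + 3)) v y := by
    intro y
    have : xs (Finset.range (n + 3)) v y ∈
        Set.range (xs (F := Gn n) (Finset.range (n + 3)) (wn n)) := hr ▸ ⟨y, rfl⟩
    exact this
  choose π hπ using hex
  refine hF n hM ⟨π, ?_, ?_⟩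
  · intro i
    have : xs (F := Gn n) (Finset.range (n + 3)) (wn n) i ∈
        Set.range (xs (Finset.range (n + 3)) v) := hr ▸ ⟨i, rfl⟩
    obtain ⟨y, hy⟩ := this
    exact ⟨y, xs_wn_inj n ((hπ y).trans hy)⟩
  · intro T hT1 hT2
    have h3 := hsp (xs (F := Gn n) (Finset.range (n + 3)) (wn n) '' T)
    have h4 : xs (Finset.range (n + 3)) v ⁻¹'
        (xs (F := Gn n) (Finset.range (n + 3)) (wn n) '' T) = π ⁻¹' T := by
      ext y
      constructor
      · rintro ⟨i, hi, hiy⟩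
        have : π y = i := xs_wn_inj n ((hπ y).trans hiy.symm)
        change π y ∈ T
        rw [this]
        exact hi
      · intro hy
        exact ⟨π y, hy, hπ y⟩
    have h5 : xs (F := Gn n) (Finset.range (n + 3)) (wn n) ⁻¹'
        (xs (F := Gn n) (Finset.range (n + 3)) (wn n) '' T) = T :=
      Set.preimage_image_eq T (xs_wn_inj n)
    rw [h4, h5] at h3
    rw [h3]
    constructor
    · rintro ⟨-, h6 | h6⟩
      · exact absurd h6 hT2
      · exact h6
    · intro h6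
      exact ⟨hT1, Or.inr h6⟩

end Pool.Agent.Q217.CI
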