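import Pool.Agent.Q217.CI.Cls

set_option autoImplicit false

/-!
# Axiomatic extensions of `FL_ew` with Craig interpolation
-/

namespace Pool.Agent.Q217.CI

open Pool.Agent.Q217.FL

/-- The Craig interpolation property. -/
def CIP (R : Set Fml → Fml → Prop) : Prop :=
  ∀ α β : Fml, R ∅ (α.imp β) →
    ∃ δ : Fml, R ∅ (α.imp δ) ∧ R ∅ (δ.imp β) ∧ δ.vars ⊆ α.vars ∩ β.vars

/-- The logic of the frames that omit the configurations in `M`. -/
def Lg (M : Set ℕ) (Γ : Set Fml) (φ : Fml) : Prop := FLew (Γ ∪ {ψ | Val (Kc M) ψ}) φ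

theorem lg_ext (M : Set ℕ) : AxiomaticExtension (Lg M) := by
  refine ⟨{ψ | Val (Kc M) ψ}, ?_, fun Γ φ => Iff.rfl⟩
  intro ψ hψ s F hF v
  rw [eval_subst]
  exact hψ F hF _

theorem lg_iff (M : Set ℕ) (φ : Fml) : Lg M ∅ φ ↔ Val (Kc M) φ := by
  constructor
  · intro h F hF v
    refine h (El F) inferInstance v fun γ hγ => ?_
    rcases hγ with hγ | hγ
    · exact absurd hγ (Set.notMem_empty γ)
    · exact hγ F hF v
  · intro h A _ v hv
    exact hv φ (Or.inr h)

theorem lg_cip (M : Set ℕ) : CIP (Lg M) := by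
  intro α β h
  rw [lg_iff] at h
  obtain ⟨δ, h1, h2, h3⟩ := cip (kc_pt M) (kc_amal M) α β h
  exact ⟨δ, (lg_iff M _).2 h2, (lg_iff M _).2 h3, h1⟩

theorem lg_inj : Function.Injective fun M : Set ℕ => {φ | Lg M ∅ φ} := by
  have key : ∀ M M' : Set ℕ, {φ | Lg M ∅ φ} = {φ | Lg M' ∅ φ} → M ⊆ M' := by
    intro M M' h n hn
    by_contra hn'
    obtain ⟨κ, h1, h2⟩ := exists_sep n
    have h3 : κ ∈ {φ | Lg M ∅ φ} := (lg_iff M κ).2 (h2 M hn)
    rw [h] at h3
    exact h1 M' hn' ((lg_iff M' κ).1 h3)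
  intro M M' h
  exact Set.Subset.antisymm (key M M' h) (key M' M h.symm)

/-- An encoding of the formulas by lists. -/
def enc : Fml → List ℕ
  | .var n => [0, n]
  | .and φ ψ => 1 :: (enc φ).length :: (enc φ ++ enc ψ)
  | .or φ ψ => 2 :: (enc φ).length :: (enc φ ++ enc ψ)
  | .mul φ ψ => 3 :: (enc φ).length :: (enc φ ++ enc ψ)
  | .imp φ ψ => 4 :: (enc φ).length :: (enc φ ++ enc ψ)
  | .e => [5]
  | .f => [6]

theorem enc_inj : Function.Injective enc := by
  intro φ
  induction φ with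
  | var n => intro ψ h; cases ψ <;> simp_all [enc]
  | e => intro ψ h; cases ψ <;> simp_all [enc]
  | f => intro ψ h; cases ψ <;> simp_all [enc]
  | and a b ih1 ih2 =>
    intro ψ h
    cases ψ with
    | and c d =>
      simp only [enc, List.cons.injEq, true_and] at h
      obtain ⟨h1, h2⟩ := List.append_inj h.2 h.1
      rw [ih1 h1, ih2 h2]
    | _ => simp [enc] at h
  | or a b ih1 ih2 =>
    intro ψ h
    cases ψ with
    | or c d =>
      simp only [enc, List.cons.injEq, true_and] at h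
      obtain ⟨h1, h2⟩ := List.append_inj h.2 h.1
      rw [ih1 h1, ih2 h2]
    | _ => simp [enc] at h
  | mul a b ih1 ih2 =>
    intro ψ h
    cases ψ with
    | mul c d =>
      simp only [enc, List.cons.injEq, true_and] at h
      obtain ⟨h1, h2⟩ := List.append_inj h.2 h.1
      rw [ih1 h1, ih2 h2]
    | _ => simp [enc] at h
  | imp a b ih1 ih2 =>
    intro ψ h
    cases ψ with
    | imp c d =>
      simp only [enc, List.cons.injEq, true_and] at h
      obtain ⟨h1, h2⟩ := List.append_inj h.2 h.1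
      rw [ih1 h1, ih2 h2]
    | _ => simp [enc] at h

theorem card_le : Cardinal.mk (Set Fml) ≤ Cardinal.continuum := by
  have : Countable Fml := enc_inj.countable
  rw [Cardinal.mk_set, ← Cardinal.two_power_aleph0]
  exact Cardinal.power_le_power_left two_ne_zero (Cardinal.mk_le_aleph0_iff.2 this)

end Pool.Agent.Q217.CI
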