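import Pool.Agent.Q217.CI.Alg

set_option autoImplicit false

/-!
# Evaluation of formulas in the algebras of frames
-/

namespace Pool.Agent.Q217.CI

open Pool.Agent.Q217.FL

/-- Classical truth. -/
def cl (e : ℕ → Prop) : Fml → Prop
  | .var n => e n
  | .and φ ψ => cl e φ ∧ cl e ψ
  | .or φ ψ => cl e φ ∨ cl e ψ
  | .mul φ ψ => cl e φ ∧ cl e ψ
  | .imp φ ψ => cl e φ → cl e ψ
  | .e => True
  | .f => False

theorem cl_congr {e e' : ℕ → Prop} (φ : Fml) (h : ∀ n ∈ φ.vars, (e n ↔ e' n)) :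
    cl e φ ↔ cl e' φ := by
  induction φ with
  | var n => exact h n rfl
  | and φ ψ ih1 ih2 =>
    rw [cl, cl, ih1 fun n hn => h n (Or.inl hn), ih2 fun n hn => h n (Or.inr hn)]
  | or φ ψ ih1 ih2 =>
    rw [cl, cl, ih1 fun n hn => h n (Or.inl hn), ih2 fun n hn => h n (Or.inr hn)]
  | mul φ ψ ih1 ih2 =>
    rw [cl, cl, ih1 fun n hn => h n (Or.inl hn), ih2 fun n hn => h n (Or.inr hn)]
  | imp φ ψ ih1 ih2 =>
    rw [cl, cl, ih1 fun n hn => h n (Or.inl hn), ih2 fun n hn => h n (Or.inr hn)]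
  | e => exact Iff.rfl
  | f => exact Iff.rfl

variable {F : Fr}

/-- The class of the value of a formula is computed classically. -/
theorem mem_eval (v : ℕ → El F) (φ : Fml) (y : F.Y) :
    y ∈ (eval v φ).c ↔ cl (fun n => y ∈ (v n).c) φ := by
  induction φ with
  | var n => exact Iff.rfl
  | and φ ψ ih1 ih2 => rw [eval, cl, ← ih1, ← ih2]; exact Iff.rfl
  | or φ ψ ih1 ih2 => rw [eval, cl, ← ih1, ← ih2]; exact Iff.rfl
  | mul φ ψ ih1 ih2 => rw [eval, cl, ← ih1, ← ih2]; exact Iff.rfl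
  | imp φ ψ ih1 ih2 =>
    rw [eval, cl, ← ih1, ← ih2, El.res_c]
    exact imp_iff_not_or.symm
  | e => exact ⟨fun _ => trivial, fun _ => trivial⟩
  | f => exact Iff.rfl

/-- Pull back along a surjection that preserves and reflects special sets. -/
def push {H : Fr} (p : H.Y → F.Y) (hp : ∀ Z, H.sp (p ⁻¹' Z) ↔ F.sp Z) (x : El F) : El H where
  c := p ⁻¹' x.c
  u := x.u
  h := fun h => (hp _).2 (x.h h)

section push

variable {H : Fr} {p : H.Y → F.Y} (hs : Function.Surjective p) (hp : ∀ Z, H.sp (p ⁻¹' Z) ↔ F.sp Z)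

include hs

theorem preimage_subset_iff' (a b : Set F.Y) : p ⁻¹' a ⊆ p ⁻¹' b ↔ a ⊆ b := by
  constructor
  · intro h z hz
    obtain ⟨y, rfl⟩ := hs z
    exact h hz
  · intro h z hz
    exact h hz

theorem preimage_univ_iff (a : Set F.Y) : p ⁻¹' a = Set.univ ↔ a = Set.univ := by
  constructor
  · intro h
    rw [Set.eq_univ_iff_forall]
    intro z
    obtain ⟨y, rfl⟩ := hs z
    exact (h ▸ Set.mem_univ y : y ∈ p ⁻¹' a)
  · rintro rfl
    rfl

theorem push_le (x y : El F) : push p hp x ≤ push p hp y ↔ x ≤ y := by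
  rw [El.le_def, El.le_def]
  change (p ⁻¹' x.c ⊆ p ⁻¹' y.c ∧ (p ⁻¹' y.c ⊆ p ⁻¹' x.c → x.u → y.u)) ↔ _
  rw [preimage_subset_iff' hs, preimage_subset_iff' hs]

theorem push_is1 (x : El F) : El.Is1 (push p hp x) ↔ El.Is1 x := by
  unfold El.Is1
  change (p ⁻¹' x.c = Set.univ ∧ x.u) ↔ _
  rw [preimage_univ_iff hs]

theorem eval_push (v : ℕ → El F) (φ : Fml) :
    eval (fun n => push p hp (v n)) φ = push p hp (eval v φ) := by
  induction φ with
  | var n => rfl
  | and φ ψ ih1 ih2 =>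
    rw [eval, eval, ih1, ih2]
    refine El.ext' rfl ?_
    change (H.sp (p ⁻¹' _ ∩ p ⁻¹' _) ∧ (p ⁻¹' _ ⊆ p ⁻¹' _ → _) ∧ (p ⁻¹' _ ⊆ p ⁻¹' _ → _)) ↔ _
    rw [← Set.preimage_inter, hp, preimage_subset_iff' hs, preimage_subset_iff' hs]
    exact Iff.rfl
  | or φ ψ ih1 ih2 =>
    rw [eval, eval, ih1, ih2]
    refine El.ext' rfl ?_
    change ((_ ∧ (p ⁻¹' _ ⊆ p ⁻¹' _)) ∨ (_ ∧ (p ⁻¹' _ ⊆ p ⁻¹' _))) ↔ _
    rw [preimage_subset_iff' hs, preimage_subset_iff' hs]
    exact Iff.rfl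
  | mul φ ψ ih1 ih2 =>
    rw [eval, eval, ih1, ih2]
    refine El.ext' rfl ?_
    rw [El.mul_u, push_is1 hs, push_is1 hs]
    exact Iff.rfl
  | imp φ ψ ih1 ih2 =>
    rw [eval, eval, ih1, ih2]
    refine El.ext' rfl ?_
    rw [El.res_u, push_is1 hs, push_le hs]
    change (_ ∨ _ ∨ (_ ∧ (p ⁻¹' _)ᶜ ∪ p ⁻¹' _ ≠ Set.univ ∧ H.sp ((p ⁻¹' _)ᶜ ∪ p ⁻¹' _))) ↔ _
    rw [← Set.preimage_compl, ← Set.preimage_union, hp, Ne, preimage_univ_iff hs]
    exact Iff.rfl
  | e => exact El.ext' rfl Iff.rfl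
  | f => exact El.ext' rfl Iff.rfl

end push

/-- Frames are nonempty. -/
theorem Fr.univ_ne (F : Fr) : (Set.univ : Set F.Y) ≠ ∅ := by
  intro h
  exact F.sp_empty (h ▸ F.sp_univ)

theorem neg_u (x : El F) : (FLewAlgebra.res x ⊥).u ↔ F.sp x.cᶜ := by
  rw [El.res_u, El.bot_c, Set.union_empty]
  constructor
  · rintro (h | ⟨h1, h2⟩ | h)
    · have : x.c = ∅ := Set.subset_empty_iff.1 h.1
      rw [this, Set.compl_empty]
      exact F.sp_univ
    · exact h2.elim
    · exact h.2.2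
  · intro h
    by_cases h0 : x.c = ∅
    · left
      refine ⟨by rw [h0]; exact Set.empty_subset _, fun _ h1 => ?_⟩
      exact (F.sp_empty (h0 ▸ x.h h1)).elim
    · right; right
      refine ⟨fun h1 => ?_, fun h1 => h0 (Set.compl_univ_iff.1 h1), h⟩
      rw [h1.1, Set.compl_univ] at h
      exact F.sp_empty h

/-- Negation. -/
def Ng (φ : Fml) : Fml := φ.imp .f

theorem ng_c (v : ℕ → El F) (φ : Fml) : (eval v (Ng φ)).c = (eval v φ).cᶜ := by
  change (eval v φ).cᶜ ∪ ∅ = _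
  rw [Set.union_empty]

theorem ng_u (v : ℕ → El F) (φ : Fml) : (eval v (Ng φ)).u ↔ F.sp (eval v φ).cᶜ :=
  neg_u _

theorem nn_c (v : ℕ → El F) (φ : Fml) : (eval v (Ng (Ng φ))).c = (eval v φ).c := by
  rw [ng_c, ng_c, compl_compl]

theorem nn_u (v : ℕ → El F) (φ : Fml) : (eval v (Ng (Ng φ))).u ↔ F.sp (eval v φ).c := by
  rw [ng_u, ng_c, compl_compl]

/-- Products of lists. -/
def mulL (l : List Fml) : Fml := l.foldr Fml.mul Fml.e

/-- Disjunctions of lists. -/
def orL (l : List Fml) : Fml := l.foldr Fml.or Fml.f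

theorem is1_mul (x y : El F) : El.Is1 (x * y) ↔ El.Is1 x ∧ El.Is1 y := El.is1_mul' x y

theorem is1_mulL (v : ℕ → El F) (l : List Fml) :
    El.Is1 (eval v (mulL l)) ↔ ∀ φ ∈ l, El.Is1 (eval v φ) := by
  induction l with
  | nil =>
    constructor
    · intro _ φ hφ
      cases hφ
    · intro _
      exact ⟨rfl, trivial⟩
  | cons a l ih =>
    change El.Is1 (eval v a * eval v (mulL l)) ↔ _
    rw [is1_mul, ih, List.forall_mem_cons]

theorem mulL_c (v : ℕ → El F) (l : List Fml) (h : ∀ φ ∈ l, (eval v φ).c = Set.univ) :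
    (eval v (mulL l)).c = Set.univ := by
  induction l with
  | nil => rfl
  | cons a l ih =>
    change (eval v a).c ∩ (eval v (mulL l)).c = _
    rw [h a List.mem_cons_self, ih fun φ hφ => h φ (List.mem_cons_of_mem _ hφ), Set.univ_inter]

theorem mulL_vars (l : List Fml) (V : Set ℕ) (h : ∀ φ ∈ l, φ.vars ⊆ V) : (mulL l).vars ⊆ V := by
  induction l with
  | nil => exact Set.empty_subset _
  | cons a l ih =>
    exact Set.union_subset (h a List.mem_cons_self)
      (ih fun φ hφ => h φ (List.mem_cons_of_mem _ hφ))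

theorem not_is1_bot : ¬ El.Is1 (⊥ : El F) := fun h => F.univ_ne h.1.symm

theorem is1_sup {x y : El F} (hx : x.c = Set.univ) : El.Is1 (x ⊔ y) ↔ El.Is1 x ∨ El.Is1 y := by
  unfold El.Is1
  rw [El.sup_c, El.sup_u, hx, Set.univ_union]
  constructor
  · rintro ⟨-, ⟨h, -⟩ | ⟨h1, h2⟩⟩
    · exact Or.inl ⟨rfl, h⟩
    · exact Or.inr ⟨Set.univ_subset_iff.1 h2, h1⟩
  · rintro (⟨-, h⟩ | ⟨h1, h2⟩)
    · exact ⟨rfl, Or.inl ⟨h, Set.subset_univ _⟩⟩
    · exact ⟨rfl, Or.inr ⟨h2, h1 ▸ subset_rfl⟩⟩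

theorem is1_orL (v : ℕ → El F) (l : List Fml) (h : ∀ φ ∈ l, (eval v φ).c = Set.univ) :
    El.Is1 (eval v (orL l)) ↔ ∃ φ ∈ l, El.Is1 (eval v φ) := by
  induction l with
  | nil =>
    constructor
    · intro h1
      exact (not_is1_bot h1).elim
    · rintro ⟨φ, h1, -⟩
      cases h1
  | cons a l ih =>
    change El.Is1 (eval v a ⊔ eval v (orL l)) ↔ _
    rw [is1_sup (h a List.mem_cons_self), ih fun φ hφ => h φ (List.mem_cons_of_mem _ hφ)]
    simp only [List.mem_cons, exists_eq_or_imp]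

theorem orL_c (v : ℕ → El F) (l : List Fml) (h : ∀ φ ∈ l, (eval v φ).c = Set.univ) (hl : l ≠ []) :
    (eval v (orL l)).c = Set.univ := by
  cases l with
  | nil => exact absurd rfl hl
  | cons a l =>
    change (eval v a).c ∪ (eval v (orL l)).c = _
    rw [h a List.mem_cons_self, Set.univ_union]

theorem orL_vars (l : List Fml) (V : Set ℕ) (h : ∀ φ ∈ l, φ.vars ⊆ V) : (orL l).vars ⊆ V := by
  induction l with
  | nil => exact Set.empty_subset _
  | cons a l ih =>
    exact Set.union_subset (h a List.mem_cons_self)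
      (ih fun φ hφ => h φ (List.mem_cons_of_mem _ hφ))

/-- Boolean functions of finitely many variables are definable. -/
theorem exists_cl (Q : Finset ℕ) : ∀ P : (ℕ → Prop) → Prop,
    (∀ e e' : ℕ → Prop, (∀ n ∈ Q, (e n ↔ e' n)) → P e → P e') →
    ∃ χ : Fml, χ.vars ⊆ (Q : Set ℕ) ∧ ∀ e, cl e χ ↔ P e := by
  classical
  induction Q using Finset.induction_on with
  | empty =>
    intro P hP
    by_cases h : P fun _ => True
    · refine ⟨.e, Set.empty_subset _, fun e => ⟨fun _ => hP _ _ (by simp) h, fun _ => trivial⟩⟩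
    · refine ⟨.f, Set.empty_subset _, fun e => ⟨fun h1 => h1.elim, fun h1 => ?_⟩⟩
      exact h (hP _ _ (by simp) h1)
  | insert q Q hq ih =>
    intro P hP
    have hset : ∀ b : Prop, ∃ χ : Fml, χ.vars ⊆ (Q : Set ℕ) ∧
        ∀ e, cl e χ ↔ P (Function.update e q b) := by
      intro b
      refine ih (fun e => P (Function.update e q b)) fun e e' h h1 => hP _ _ (fun n hn => ?_) h1
      by_cases hnq : n = q
      · subst hnq
        simp
      · rw [Function.update_of_ne hnq, Function.update_of_ne hnq]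
        exact h n ((Finset.mem_insert.1 hn).resolve_left hnq)
    obtain ⟨χ1, h1, h2⟩ := hset True
    obtain ⟨χ0, h3, h4⟩ := hset False
    refine ⟨.or (.and (.var q) χ1) (.and (Ng (.var q)) χ0), ?_, fun e => ?_⟩
    · have hQ : (Q : Set ℕ) ⊆ ((insert q Q : Finset ℕ) : Set ℕ) := by
        rw [Finset.coe_insert]
        exact Set.subset_insert _ _
      have hqm : ({q} : Set ℕ) ⊆ ((insert q Q : Finset ℕ) : Set ℕ) := by
        rw [Finset.coe_insert]
        simp
      exact Set.union_subset (Set.union_subset hqm (h1.trans hQ))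
        (Set.union_subset (Set.union_subset hqm (Set.empty_subset _)) (h3.trans hQ))
    · change ((e q ∧ cl e χ1) ∨ ((e q → False) ∧ cl e χ0)) ↔ _
      rw [h2, h4]
      by_cases heq : e q
      · have : Function.update e q True = e := by
          rw [Function.update_eq_iff]
          exact ⟨(propext ⟨fun _ => heq, fun _ => trivial⟩ : True = e q), fun _ _ => rfl⟩
        rw [this]
        tauto
      · have : Function.update e q False = e := by
          rw [Function.update_eq_iff]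
          exact ⟨(propext ⟨fun h => h.elim, fun h => heq h⟩ : False = e q), fun _ _ => rfl⟩
        rw [this]
        tauto

theorem vars_finite (φ : Fml) : φ.vars.Finite := by
  induction φ with
  | var n => exact Set.finite_singleton n
  | and φ ψ ih1 ih2 => exact ih1.union ih2
  | or φ ψ ih1 ih2 => exact ih1.union ih2
  | mul φ ψ ih1 ih2 => exact ih1.union ih2
  | imp φ ψ ih1 ih2 => exact ih1.union ih2
  | e => exact Set.finite_empty
  | f => exact Set.finite_empty

end Pool.Agent.Q217.CI
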