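import Pool.Agent.Q217.CI.Sem

set_option autoImplicit false

/-!
# Test formulas: they determine the type of a valuation of finitely many variables
-/

namespace Pool.Agent.Q217.CI

open Pool.Agent.Q217.FL
open Classical

variable {F : Fr}

/-- The list of the elements of a set in a finite type. -/
noncomputable def lst {ι : Type} [Finite ι] (S : Set ι) : List ι :=
  (Set.toFinite S).toFinset.toList

theorem mem_lst {ι : Type} [Finite ι] (S : Set ι) (i : ι) : i ∈ lst S ↔ i ∈ S := by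
  unfold lst
  rw [Finset.mem_toList, Set.Finite.mem_toFinset]

/-- The variables in `Q` that hold at a point. -/
def xs (Q : Finset ℕ) (v : ℕ → El F) (y : F.Y) : Set Q := {q | y ∈ (v q).c}

theorem exists_chi (Q : Finset ℕ) (Z : Set (Set Q)) :
    ∃ χ : Fml, χ.vars ⊆ (Q : Set ℕ) ∧ ∀ e, cl e χ ↔ {q : Q | e q} ∈ Z := by
  refine exists_cl Q (fun e => {q : Q | e q} ∈ Z) fun e e' h h1 => ?_
  have : {q : Q | e q} = {q : Q | e' q} := by
    ext q
    exact h q q.2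
  change {q : Q | e' q} ∈ Z
  rw [← this]
  exact h1

/-- The formula that defines a set of valuations of `Q`. -/
noncomputable def chi (Q : Finset ℕ) (Z : Set (Set Q)) : Fml := (exists_chi Q Z).choose

theorem chi_vars (Q : Finset ℕ) (Z : Set (Set Q)) : (chi Q Z).vars ⊆ (Q : Set ℕ) :=
  (exists_chi Q Z).choose_spec.1

theorem chi_c (Q : Finset ℕ) (Z : Set (Set Q)) (v : ℕ → El F) :
    (eval v (chi Q Z)).c = xs Q v ⁻¹' Z := by
  ext y
  rw [mem_eval, chi, (exists_chi Q Z).choose_spec.2]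
  exact Iff.rfl

/-- The test formulas whose class is always everything. -/
noncomputable def th (Q : Finset ℕ) : Set (Set Q) ⊕ Set (Set Q) ⊕ Q → Fml
  | .inl Z => .or (Ng (chi Q Z)) (Ng (Ng (chi Q Z)))
  | .inr (.inl Z) =>
    .imp (Ng (Ng (chi Q Z))) (.mul (Ng (Ng (chi Q Z))) (Ng (Ng (chi Q Z))))
  | .inr (.inr q) => .imp (Ng (Ng (.var q))) (.var q)

theorem ng_vars (φ : Fml) (V : Set ℕ) (h : φ.vars ⊆ V) : (Ng φ).vars ⊆ V :=
  Set.union_subset h (Set.empty_subset _)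

theorem th_vars (Q : Finset ℕ) (i) : (th Q i).vars ⊆ (Q : Set ℕ) := by
  rcases i with Z | Z | q
  · exact Set.union_subset (ng_vars _ _ (chi_vars Q Z)) (ng_vars _ _ (ng_vars _ _ (chi_vars Q Z)))
  · have := ng_vars _ _ (ng_vars _ _ (chi_vars Q Z))
    exact Set.union_subset this (Set.union_subset this this)
  · have : (Fml.var q).vars ⊆ (Q : Set ℕ) := Set.singleton_subset_iff.2 q.2
    exact Set.union_subset (ng_vars _ _ (ng_vars _ _ this)) this

theorem th_c (Q : Finset ℕ) (i) (v : ℕ → El F) : (eval v (th Q i)).c = Set.univ := by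
  rcases i with Z | Z | q
  · change (eval v (Ng (chi Q Z))).c ∪ (eval v (Ng (Ng (chi Q Z)))).c = _
    rw [ng_c _ (Ng (chi Q Z)), Set.union_compl_self]
  · change (eval v (Ng (Ng (chi Q Z)))).cᶜ ∪ ((eval v (Ng (Ng (chi Q Z)))).c ∩
      (eval v (Ng (Ng (chi Q Z)))).c) = _
    rw [Set.inter_self, Set.compl_union_self]
  · change (eval v (Ng (Ng (.var q)))).cᶜ ∪ (eval v (.var q)).c = _
    rw [nn_c, Set.compl_union_self]

theorem is1_iff_of_c {x : El F} (h : x.c = Set.univ) : El.Is1 x ↔ x.u :=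
  ⟨fun h1 => h1.2, fun h1 => ⟨h, h1⟩⟩

theorem th1_is1 (Q : Finset ℕ) (Z : Set (Set Q)) (v : ℕ → El F) :
    El.Is1 (eval v (th Q (.inl Z))) ↔ xs Q v ⁻¹' Z = ∅ ∨ xs Q v ⁻¹' Z = Set.univ := by
  rw [is1_iff_of_c (th_c Q _ v)]
  change ((eval v (Ng (chi Q Z))).u ∧ (eval v (Ng (Ng (chi Q Z)))).c ⊆ (eval v (Ng (chi Q Z))).c) ∨
    ((eval v (Ng (Ng (chi Q Z)))).u ∧ (eval v (Ng (chi Q Z))).c ⊆ (eval v (Ng (Ng (chi Q Z)))).c) ↔ _
  rw [nn_u, nn_c, ng_u, ng_c, chi_c]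
  constructor
  · rintro (⟨-, h⟩ | ⟨-, h⟩)
    · left
      by_contra hc
      obtain ⟨y, hy⟩ := Set.nonempty_iff_ne_empty.2 hc
      exact h hy hy
    · right
      rw [Set.eq_univ_iff_forall]
      intro y
      by_contra hy
      exact hy (h hy)
  · rintro (h | h)
    · left
      rw [h]
      exact ⟨by rw [Set.compl_empty]; exact F.sp_univ, Set.empty_subset _⟩
    · right
      rw [h]
      exact ⟨F.sp_univ, Set.subset_univ _⟩

theorem is1_res {x y : El F} : El.Is1 (FLewAlgebra.res x y) ↔ x ≤ y := by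
  rw [← El.eq_one_iff, res_eq_one]

theorem is1_res_univ {x y : El F} (hy : y.c = Set.univ) :
    El.Is1 (FLewAlgebra.res x y) ↔ (El.Is1 x → El.Is1 y) := by
  rw [is1_res, El.le_def, is1_iff_of_c hy, hy]
  unfold El.Is1
  rw [Set.univ_subset_iff]
  constructor
  · rintro ⟨-, h⟩ ⟨h1, h2⟩
    exact h h1 h2
  · intro h
    exact ⟨Set.subset_univ _, fun h1 h2 => h ⟨h1, h2⟩⟩

theorem th2_is1 (Q : Finset ℕ) (Z : Set (Set Q)) (v : ℕ → El F) :
    El.Is1 (eval v (th Q (.inr (.inl Z)))) ↔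
      xs Q v ⁻¹' Z = Set.univ ∨ ¬ F.sp (xs Q v ⁻¹' Z) := by
  change El.Is1 (FLewAlgebra.res (eval v (Ng (Ng (chi Q Z))))
    (eval v (Ng (Ng (chi Q Z))) * eval v (Ng (Ng (chi Q Z))))) ↔ _
  rw [is1_res, El.le_def, El.mul_u, El.mul_c, Set.inter_self]
  unfold El.Is1
  rw [nn_u, nn_c, chi_c]
  constructor
  · rintro ⟨-, h⟩
    by_contra hc
    push Not at hc
    have := h subset_rfl hc.2
    rcases this with h1 | h1
    · exact hc.1 h1.1.1
    · exact hc.1 h1.1.1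
  · intro h
    refine ⟨subset_rfl, fun _ h1 => ?_⟩
    rcases h with h | h
    · exact Or.inl ⟨⟨h, h1⟩, h1⟩
    · exact absurd h1 h

theorem th3_is1 (Q : Finset ℕ) (q : Q) (v : ℕ → El F) :
    El.Is1 (eval v (th Q (.inr (.inr q)))) ↔ (F.sp (v q).c → (v q).u) := by
  change El.Is1 (FLewAlgebra.res (eval v (Ng (Ng (.var q)))) (eval v (.var q))) ↔ _
  rw [is1_res, El.le_def, nn_u, nn_c]
  change (_ ∧ ((v q).c ⊆ (v q).c → F.sp (v q).c → (v q).u)) ↔ _
  constructor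
  · rintro ⟨-, h⟩
    exact h subset_rfl
  · intro h
    exact ⟨subset_rfl, fun _ => h⟩

theorem ps_is1 (Q : Finset ℕ) (Z : Set (Set Q)) (v : ℕ → El F) :
    El.Is1 (eval v (Ng (chi Q Z))) ↔ xs Q v ⁻¹' Z = ∅ := by
  unfold El.Is1
  rw [ng_u, ng_c, chi_c, Set.compl_univ_iff]
  constructor
  · exact fun h => h.1
  · intro h
    rw [h, Set.compl_empty]
    exact ⟨rfl, F.sp_univ⟩

/-- The test formulas determine the type. -/
theorem agree {G : Fr} (Q : Finset ℕ) (v : ℕ → El F) (w : ℕ → El G)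
    (h1 : ∀ i, El.Is1 (eval w (th Q i)) → El.Is1 (eval v (th Q i)))
    (h2 : ∀ i, El.Is1 (eval v (th Q i)) → El.Is1 (eval w (th Q i)))
    (h3 : ∀ Z, El.Is1 (eval w (Ng (chi Q Z))) → El.Is1 (eval v (Ng (chi Q Z)))) :
    Set.range (xs Q v) = Set.range (xs Q w) ∧
    (∀ Z, F.sp (xs Q v ⁻¹' Z) ↔ G.sp (xs Q w ⁻¹' Z)) ∧ ∀ q ∈ Q, ((v q).u ↔ (w q).u) := by
  have hsub : Set.range (xs Q v) ⊆ Set.range (xs Q w) := by
    rintro A ⟨y, rfl⟩
    by_contra hc
    have h4 : xs Q w ⁻¹' {xs Q v y} = ∅ := by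
      rw [Set.eq_empty_iff_forall_notMem]
      intro z hz
      exact hc ⟨z, hz⟩
    have h5 := (ps_is1 Q _ v).1 (h3 _ ((ps_is1 Q _ w).2 h4))
    have : y ∈ xs Q v ⁻¹' {xs Q v y} := rfl
    rw [h5] at this
    exact this
  have hsup : Set.range (xs Q w) ⊆ Set.range (xs Q v) := by
    rintro A ⟨y, rfl⟩
    by_contra hc
    have h4 : xs Q v ⁻¹' {xs Q w y} = ∅ := by
      rw [Set.eq_empty_iff_forall_notMem]
      intro z hz
      exact hc ⟨z, hz⟩
    rcases (th1_is1 Q _ w).1 (h2 _ ((th1_is1 Q _ v).2 (Or.inl h4))) with h5 | h5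
    · have : y ∈ xs Q w ⁻¹' {xs Q w y} := rfl
      rw [h5] at this
      exact this
    · -- range w = {xs w y}
      obtain ⟨z, -⟩ := Set.nonempty_iff_ne_empty.2 F.univ_ne
      obtain ⟨z', hz'⟩ := hsub ⟨z, rfl⟩
      have h6 : xs Q w z' = xs Q w y := by
        have : z' ∈ xs Q w ⁻¹' {xs Q w y} := h5 ▸ Set.mem_univ z'
        exact this
      exact hc ⟨z, hz'.symm.trans h6⟩
  have hr := hsub.antisymm hsup
  have huniv : ∀ Z, xs Q v ⁻¹' Z = Set.univ ↔ xs Q w ⁻¹' Z = Set.univ := by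
    intro Z
    rw [Set.preimage_eq_univ_iff, Set.preimage_eq_univ_iff, hr]
  have hsp : ∀ Z, F.sp (xs Q v ⁻¹' Z) ↔ G.sp (xs Q w ⁻¹' Z) := by
    intro Z
    by_cases hu : xs Q v ⁻¹' Z = Set.univ
    · rw [hu, (huniv Z).1 hu]
      exact ⟨fun _ => G.sp_univ, fun _ => F.sp_univ⟩
    · have hu' : xs Q w ⁻¹' Z ≠ Set.univ := fun h => hu ((huniv Z).2 h)
      have h4 := h1 (.inr (.inl Z))
      have h5 := h2 (.inr (.inl Z))
      rw [th2_is1, th2_is1] at h4 h5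
      tauto
  refine ⟨hr, hsp, fun q hq => ?_⟩
  have h4 := h1 (.inr (.inr ⟨q, hq⟩))
  have h5 := h2 (.inr (.inr ⟨q, hq⟩))
  rw [th3_is1, th3_is1] at h4 h5
  have h6 := hsp {A | (⟨q, hq⟩ : Q) ∈ A}
  have h7 : xs Q v ⁻¹' {A | (⟨q, hq⟩ : Q) ∈ A} = (v q).c := rfl
  have h8 : xs Q w ⁻¹' {A | (⟨q, hq⟩ : Q) ∈ A} = (w q).c := rfl
  rw [h7, h8] at h6
  change (G.sp (w q).c → (w q).u) → (F.sp (v q).c → (v q).u) at h4
  change (F.sp (v q).c → (v q).u) → (G.sp (w q).c → (w q).u) at h5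
  constructor
  · intro h9
    exact h5 (fun _ => h9) (h6.1 ((v q).h h9))
  · intro h9
    exact h4 (fun _ => h9) (h6.2 ((w q).h h9))

/-- Characteristic formulas. -/
noncomputable def kap (Q : Finset ℕ)
    (j : Set (Set (Set Q) ⊕ Set (Set Q) ⊕ Q) × Set (Set (Set Q)) ×
      Set (Set (Set Q) ⊕ Set (Set Q) ⊕ Q)) : Fml :=
  .imp (.mul (mulL ((lst j.1).map (th Q))) (mulL ((lst j.2.1).map fun Z => Ng (chi Q Z))))
    (orL ((lst j.2.2).map (th Q)))

theorem kap_vars (Q : Finset ℕ) (j) : (kap Q j).vars ⊆ (Q : Set ℕ) := by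
  refine Set.union_subset (Set.union_subset (mulL_vars _ _ ?_) (mulL_vars _ _ ?_))
    (orL_vars _ _ ?_)
  · intro φ hφ
    obtain ⟨i, -, rfl⟩ := List.mem_map.1 hφ
    exact th_vars Q i
  · intro φ hφ
    obtain ⟨i, -, rfl⟩ := List.mem_map.1 hφ
    exact ng_vars _ _ (chi_vars Q i)
  · intro φ hφ
    obtain ⟨i, -, rfl⟩ := List.mem_map.1 hφ
    exact th_vars Q i

theorem kap_spec (Q : Finset ℕ) (j) (hj : (j.2.2 : Set _).Nonempty) (v : ℕ → El F) :
    (eval v (kap Q j)).c = Set.univ ∧ (El.Is1 (eval v (kap Q j)) ↔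
      ((∀ i ∈ j.1, El.Is1 (eval v (th Q i))) ∧ (∀ Z ∈ j.2.1, El.Is1 (eval v (Ng (chi Q Z)))) →
        ∃ i ∈ j.2.2, El.Is1 (eval v (th Q i)))) := by
  have h1 : ∀ φ ∈ (lst j.2.2).map (th Q), (eval v φ).c = Set.univ := by
    intro φ hφ
    obtain ⟨i, -, rfl⟩ := List.mem_map.1 hφ
    exact th_c Q i v
  have h2 : (eval v (orL ((lst j.2.2).map (th Q)))).c = Set.univ := by
    refine orL_c v _ h1 ?_
    obtain ⟨i, hi⟩ := hj
    have : th Q i ∈ (lst j.2.2).map (th Q) := List.mem_map.2 ⟨i, (mem_lst _ _).2 hi, rfl⟩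
    exact List.ne_nil_of_mem this
  constructor
  · change (eval v (Fml.mul _ _)).cᶜ ∪ (eval v (orL ((lst j.2.2).map (th Q)))).c = _
    rw [h2, Set.union_univ]
  · change El.Is1 (FLewAlgebra.res (eval v (mulL ((lst j.1).map (th Q))) *
      eval v (mulL ((lst j.2.1).map fun Z => Ng (chi Q Z)))) (eval v (orL _))) ↔ _
    rw [is1_res_univ h2, is1_mul, is1_mulL, is1_mulL, is1_orL v _ h1]
    simp only [List.mem_map, forall_exists_index, and_imp, forall_apply_eq_imp_iff₂, mem_lst,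
      exists_exists_and_eq_and]

end Pool.Agent.Q217.CI
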